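import Pool.Agent.K1H12.SE.Two3

/-!
# The period conjecture in bounded degree for almost all products of abelian varieties with real multiplication in
# the families of Jacobians of the curves `y^N = (x - a_0) (x - a_1) (x - t)^(N - 1)`

Let `a_0 < a_1` be the roots of a quadratic polynomial over `ℚ`, different from `0`, and let `μ` be a rational number in
`(0, 1)`. For `t` in the same gap as `0` let `P_μ(t)` be the `2 × 2` matrix of the integrals
`∫ x^j |x - a_0|^(-μ) |x - a_1|^(-μ) |x - t|^(μ - 1) dx` over the two segments between consecutive points of `{a_0, a_1, t}`.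

Let `N ≥ 3` be odd and `C_t : y^N = (x - a_0) (x - a_1) (x - t)^(N - 1)`, a curve of genus `N - 1`. The involution of `C_t` which
exchanges the branch points `a_0, a_1` with `t, ∞` shows that the Jacobian of `C_t` is isogenous to the square of an abelian
variety `B_t` of dimension `g = (N - 1) / 2`, with multiplication by the totally real fields `ℚ (cos (2 π / d))`, `d ∣ N`,
`d > 1` (of total degree `g`). Up to algebraic factors the periods of `B_t` are the `4 g` entries of the matrices `P_μ(t)`,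
`μ = 1 / N, …, g / N`, and they generate with `π` a field which is algebraic over the field of the periods. For `μ = 1 / 2` the
entries of `P_μ(t)` are the periods of the elliptic curve `y² = (x - a_0) (x - a_1) (x - t)`. The Mumford-Tate group of a
very general product `B_(t_1) × ⋯ × B_(t_k)` consists of the `(g_(l, μ)) ∈ GL(2)^(k g)` with equal determinants (over a number field), its
dimension is `3 k g + 1`.

**Theorem.** Let `μ_1, …, μ_s` be distinct rational numbers in `(0, 1)` with `μ_σ + μ_τ ≠ 1` for `σ ≠ τ` (for instance the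
numbers `1 / N, …, g / N`, or also all `A / N < 1 / 2` for several `N`), and let `k, D, e` be natural numbers. For every
number field `K ⊂ ℂ` of degree at most `D` and for almost all `k`-tuples `m` of natural numbers (all but `C T^(k - c)` of the tuples
in `[2, T]^k`, and all tuples of separated integers in the windows `[N, N + N^c]` without at most `M` integers; the exceptional
sets depend on `K`, the constants only on `D`) and `t_l = 1 / m_l`:

* `det P_σ(t_l) = π c_σ` with the algebraic numbers `c_σ = (a_1 - a_0)^(1 - 2 μ_σ) / ((1 - μ_σ) sin (π μ_σ))` (the Legendre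
relations, which come from the polarisations and the real multiplication);
* every polynomial of degree at most `e` over `K` which vanishes at `π` and the `4 k s` entries of the matrices `P_σ(t_l)` vanishes
at all `w ≠ 0` and `X_(l, σ) ∈ GL(2)` with `det X_(l, σ) = w c_σ`.

So all relations of degree at most `e` over `K` hold on the torsor under the group of the `(g_(l, σ)) ∈ GL(2)^(k s)` with equal
determinants, of dimension `3 k s + 1`, as predicted by the period conjecture; in this sense the transcendence degree of the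
periods is `3 k s + 1` in degree `e`, and this is unconditional. In contrast to the families of all hyperelliptic curves
(`y² = f(x) (x - t)`, which have the Mumford-Tate group `GSp`) these abelian varieties have many endomorphisms.

Proof (`Pool/Agent/K1H12/SE`). The matrix `Z` with `P_σ(t) = P_σ(0) Z(t)` consists of G-functions, `det Z = 1`. The boundary values
on the gaps of the integrals from `a_i` to `t`, which are holomorphic in the upper half plane, give for each root a unipotent element
which preserves all algebraic relations over `ℂ(t)` between the periods for all `σ` simultaneously; these elements generate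
`SL(2)^s`, the exponents are separated by the numbers `(q - 1) (1 - q⁻¹)`, `q = exp (-2 π i μ)`. By a theorem of helper113
(`Pool/Agent/Y113/GG`) relations of bounded degree between the values are specialisations of functional relations outside of
a sparse set. So relations are preserved by `SL(2)^(k s)`. The determinants do not depend on `t`, and their value is found
from the limit `t → a_0`. Finally `π` is transcendental and the rational points of `SL(2)^(k s)` are dense.
-/

set_option autoImplicit false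

open Polynomial Matrix

namespace Pool.Agent.Results.MP_cbf1af_ag.RealMultiplicationPeriods

/-- the branch points: `t` inserted at place `p` in the sequence `a 0, a 1` -/
noncomputable def branch (a : Fin 2 → ℝ) (p : Fin 3) (t : ℝ) : Fin 3 → ℝ :=
  Fin.insertNth (α := fun _ => ℝ) p t a

/-- the periods `∫ x^j |x - a 0|^(-μ) |x - a 1|^(-μ) |x - t|^(μ - 1) dx` over the segments `[e l, e (l + 1)]`,
`e = branch a p t` -/
noncomputable def periods (a : Fin 2 → ℝ) (p : Fin 3) (μ : ℚ) (t : ℝ) : Matrix (Fin 2) (Fin 2) ℂ :=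
  Matrix.of fun l j => ((∫ x in (branch a p t l.castSucc)..(branch a p t l.succ),
    x ^ (j : ℕ) * ((∏ i, |x - a i| ^ (-(μ : ℝ))) * |x - t| ^ ((μ : ℝ) - 1)) : ℝ) : ℂ)

/-- the algebraic number `c_μ = (a_1 - a_0)^(1 - 2 μ) / ((1 - μ) sin (π μ))` -/
noncomputable def factor (a : Fin 2 → ℝ) (μ : ℚ) : ℝ :=
  (a 1 - a 0) ^ (1 - 2 * (μ : ℝ)) / ((1 - (μ : ℝ)) * Real.sin (Real.pi * (μ : ℝ)))

/-- the point with the coordinates `w` and the entries of the matrices `X l σ` -/
def point {k s : ℕ} (w : ℂ) (X : Fin k → Fin s → Matrix (Fin 2) (Fin 2) ℂ) : Option (Fin k × Fin s × Fin 2 × Fin 2) → ℂ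
  | none => w
  | some b => X b.1 b.2.1 b.2.2.1 b.2.2.2

/-- the conclusion for relations of degree at most `e` over `K` and the fibres at `t = 1 / m_1, …, 1 / m_k` -/
def Predicted {s k : ℕ} (K : IntermediateField ℚ ℂ) (a : Fin 2 → ℝ) (p : Fin 3) (μ : Fin s → ℚ) (e : ℕ)
    (m : Fin k → ℕ) : Prop :=
  (∀ l, StrictMono (branch a p (1 / (m l : ℝ)))) ∧
  (∀ l σ, (periods a p (μ σ) (1 / (m l : ℝ))).det = (Real.pi : ℂ) * (factor a (μ σ) : ℂ)) ∧
  ∀ Q : MvPolynomial (Option (Fin k × Fin s × Fin 2 × Fin 2)) K, Q.totalDegree ≤ e →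
    MvPolynomial.aeval (point (Real.pi : ℂ) fun l σ => periods a p (μ σ) (1 / (m l : ℝ))) Q = 0 →
    ∀ (w : ℂ) (X : Fin k → Fin s → Matrix (Fin 2) (Fin 2) ℂ), w ≠ 0 → (∀ l σ, (X l σ).det = w * (factor a (μ σ) : ℂ)) →
      MvPolynomial.aeval (point w X) Q = 0

open Classical in
/-- The theorem. The second part says that the numbers `c_σ` are algebraic. -/
theorem result (s : ℕ) (a : Fin 2 → ℝ) (f : ℚ[X]) (p : Fin 3) (μ : Fin s → ℚ)
    (hf : f.map (algebraMap ℚ ℝ) = ∏ i, (X - C (a i))) (ha : StrictMono (branch a p 0))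
    (hμ : ∀ σ, 0 < μ σ ∧ μ σ < 1) (hinj : Function.Injective μ) (hdual : ∀ σ τ, σ ≠ τ → μ σ + μ τ ≠ 1) :
    (∃ G : ℕ, ∀ k D e : ℕ, 0 < k →
      (∃ M : ℕ, ∃ c : ℝ, 0 < c ∧ ∀ K : IntermediateField ℚ ℂ, FiniteDimensional ℚ K → Module.finrank ℚ K ≤ D →
        ∀ N : ℕ, 1 ≤ N →
        ∃ S : Finset ℕ, S.card ≤ M ∧ ∀ m : Fin k → ℕ, (∀ i j, i ≠ j → (G : ℤ) ≤ |(m i : ℤ) - m j|) →
          (∀ i, N ≤ m i ∧ (m i : ℝ) ≤ N + (N : ℝ) ^ c ∧ m i ∉ S) → Predicted K a p μ e m) ∧
      ∃ c : ℝ, 0 < c ∧ ∃ C : ℝ, ∀ K : IntermediateField ℚ ℂ, FiniteDimensional ℚ K → Module.finrank ℚ K ≤ D →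
        ∀ T : ℕ, 1 ≤ T →
        (((Fintype.piFinset fun _ : Fin k => Finset.Icc 2 T).filter fun m => ¬ Predicted K a p μ e m).card : ℝ) ≤
          C * (T : ℝ) ^ ((k : ℝ) - c)) ∧
    ∀ σ, IsAlgebraic ℚ ((factor a (μ σ) : ℝ) : ℂ) := by
  have h01 : a 0 < a 1 := K1H12.SE.mono_of_brp ha (by simp)
  have halg : ∀ σ, IsAlgebraic ℚ ((factor a (μ σ) : ℝ) : ℂ) := fun σ => K1H12.SE.alg_cq hf h01 (μ σ)
  obtain ⟨δ, -, G, hmain⟩ := K1H12.SE.main_se (n := 2) le_rfl hf ha (fun σ => (hμ σ).1) (fun σ => (hμ σ).2) hinj hdual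
    (fun h σ => absurd h (by norm_num)) (fun h σ j => absurd h (by norm_num))
  -- the field of the constants
  set L : IntermediateField ℚ ℂ := IntermediateField.adjoin ℚ (Set.range fun σ => ((factor a (μ σ) : ℝ) : ℂ)) with hL
  have hLf : FiniteDimensional ℚ L := by
    refine IntermediateField.finiteDimensional_adjoin fun x hx => ?_
    obtain ⟨σ, rfl⟩ := hx
    exact (halg σ).isIntegral
  have hfld : ∀ K : IntermediateField ℚ ℂ, FiniteDimensional ℚ K → ∃ K' : Subfield ℂ, FiniteDimensional ℚ K' ∧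
      Module.finrank ℚ K' ≤ Module.finrank ℚ K * Module.finrank ℚ L ∧ (∀ x ∈ K, x ∈ K') ∧
      ∀ σ, ((factor a (μ σ) : ℝ) : ℂ) ∈ K' := by
    intro K hK
    have e : (K ⊔ L : IntermediateField ℚ ℂ) ≃ₗ[ℚ] (K ⊔ L : IntermediateField ℚ ℂ).toSubfield :=
      LinearEquiv.ofBijective (AddMonoidHom.toRatLinearMap (AddMonoidHom.id (K ⊔ L : IntermediateField ℚ ℂ) :
        (K ⊔ L : IntermediateField ℚ ℂ) →+ (K ⊔ L : IntermediateField ℚ ℂ).toSubfield)) Function.bijective_id
    refine ⟨(K ⊔ L).toSubfield, Module.Finite.equiv e, ?_, fun x hx => (le_sup_left : K ≤ K ⊔ L) hx,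
      fun σ => (le_sup_right : L ≤ K ⊔ L) (IntermediateField.subset_adjoin _ _ ⟨σ, rfl⟩)⟩
    rw [← LinearEquiv.finrank_eq e]
    exact IntermediateField.finrank_sup_le K L
  have hconv : ∀ {k e : ℕ} (hk : 0 < k) (K : IntermediateField ℚ ℂ) (K' : Subfield ℂ) (hK' : FiniteDimensional ℚ K')
      (hle : ∀ x ∈ K, x ∈ K') (hKf : ∀ σ, ((factor a (μ σ) : ℝ) : ℂ) ∈ K') (m : Fin k → ℕ),
      K1H12.SE.Cn K' (Matrix.of fun _ _ => (Real.pi : ℂ) : Matrix (Fin 1) (Fin 1) ℂ) a p (fun σ => (μ σ : ℝ)) δ e m →
      Predicted K a p μ e m := by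
    intro k e hk K K' hK' hle hKf m hC
    refine ⟨hC.1, fun l σ => ?_, fun Q hQ hQ0 w X hw hX => ?_⟩
    · have h3 := K1H12.SE.det_prd hf ha (hμ σ).1 (hμ σ).2 (hC.1 l)
      rw [Complex.ofReal_mul] at h3
      exact h3
    · set ι : K →+* K' := K.toSubfield.subtype.codRestrict K' (fun x => hle x.1 x.2) with hι
      have hev : ∀ y : Option (Fin k × Fin s × Fin 2 × Fin 2) → ℂ,
          MvPolynomial.eval y (MvPolynomial.map (algebraMap K' ℂ) (MvPolynomial.map ι Q)) = MvPolynomial.aeval y Q := by
        intro y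
        rw [MvPolynomial.map_map, MvPolynomial.eval_map, MvPolynomial.aeval_def]
        rfl
      have hpt : ∀ (w : ℂ) (X : Fin k → Fin s → Matrix (Fin 2) (Fin 2) ℂ), K1H12.SE.pt w X = point w X := by
        intro w X
        funext o
        rcases o with _ | b <;> rfl
      have h4 := K1H12.SE.two_rel hk hf ha (fun σ => (hμ σ).1) (fun σ => (hμ σ).2) hKf hC (MvPolynomial.map ι Q)
        ((Finset.sup_mono (MvPolynomial.support_map_subset ι Q)).trans hQ) (by rw [hev, hpt]; exact hQ0) hw hX
      rw [hev, hpt] at h4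
      exact h4
  refine ⟨⟨G, fun k D e hk => ?_⟩, halg⟩
  obtain ⟨⟨M, c₁, hc₁, hwin⟩, c, hc, C, hcount⟩ := hmain k (D * Module.finrank ℚ L) 1 e
  refine ⟨⟨M, c₁, hc₁, ?_⟩, c, hc, C, ?_⟩
  · intro K hK hKD N hN
    obtain ⟨K', hK', hd, hle, hKf⟩ := hfld K hK
    obtain ⟨S, hS, hS'⟩ := hwin K' hK' (hd.trans (Nat.mul_le_mul_right _ hKD)) (Matrix.of fun _ _ => (Real.pi : ℂ)) N hN
    exact ⟨S, hS, fun m hm hmS => hconv hk K K' hK' hle hKf m (hS' m hm hmS)⟩
  · intro K hK hKD T hT
    obtain ⟨K', hK', hd, hle, hKf⟩ := hfld K hK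
    refine le_trans ?_ (hcount K' hK' (hd.trans (Nat.mul_le_mul_right _ hKD)) (Matrix.of fun _ _ => (Real.pi : ℂ)) T hT)
    have h2 : ((Fintype.piFinset fun _ : Fin k => Finset.Icc 2 T).filter fun m => ¬ Predicted K a p μ e m) ⊆
        ((Fintype.piFinset fun _ : Fin k => Finset.Icc 2 T).filter fun m =>
          ¬ K1H12.SE.Cn K' (Matrix.of fun _ _ => (Real.pi : ℂ) : Matrix (Fin 1) (Fin 1) ℂ) a p (fun σ => (μ σ : ℝ)) δ e m) := by
      intro m hm
      rw [Finset.mem_filter] at hm ⊢
      exact ⟨hm.1, fun h3 => hm.2 (hconv hk K K' hK' hle hKf m h3)⟩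
    exact_mod_cast Finset.card_le_card h2

end Pool.Agent.Results.MP_cbf1af_ag.RealMultiplicationPeriods
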